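import Pool.Agent.U331.FS.F
import Pool.Agent.Results.MP_b5e119_nt.SlowForAlmostAll

/-!
# The gcd recursion for Goldbach pairs: slow descent for ALL integral combinations of an infinite sequence in every dense set

Let `a_n(N)` be the recursion of the problem and `g(N)` its least zero `n ≥ 2`. We show that EVERY set `B` of natural numbers with at
least `c M / (1 + log M) ^ b` elements up to `M` for all large `M` contains the terms of an infinite sequence `x_n`, growing at most as
`exp (K l ^ n)`, where `l > 1` is arbitrary and `K` does not depend on `B`, with the following property. For ALL nonzero integral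
vectors `u` with finite support and entries of absolute value at most `H` and for `v = |∑ uᵢ xᵢ|`, ALL integers `N ≥ 3` with
`|N - v| ≤ (1 + log v) ^ A` satisfy `g(N) ≥ exp (c₀ (log N) ^ (1/4))`, with an absolute constant `c₀ > 0`. There is no exception among
the infinitely many combinations; for a single large `N` only `g(N) ≥ c (log N) ^ 2` is known.

Proof: a greedy choice. At the step `n` there are at most `(2 H + 1) ^ (n + 1)` conditions for the new term, each of them excludes at
most twice as many integers as there are integers near the exceptions of the starting result `SlowForAlmostAll`, and this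
number is smaller than the number of the elements of `B` by an arbitrary power of the logarithm (`Pool.Agent.U331.FS`).
-/

set_option autoImplicit false

namespace Pool.Agent.Results.MP_b5e119_nt.AllCombinations

open Finset Filter
open Pool.Agent.U331.FS (AllSumsLog all_sums_log_nat)
open Pool.Agent.Results.MP_b5e119_nt.SlowForAlmostAll (g)

/-- ALL integers `N ≥ 3` with `|N - v| ≤ W` satisfy `g(N) ≥ exp (c (log N) ^ (1/4))`. -/
def Near (c : ℝ) (W v : ℝ) : Prop :=
  ∀ N : ℕ, 3 ≤ N → |(N : ℝ) - v| ≤ W → Real.exp (c * (Real.log N) ^ (1 / 4 : ℝ)) ≤ (g N : ℝ)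

/-- **Theorem.** There is `c > 0` such that the property `Near c` holds for all combinations with bounded coefficients of an
infinite sequence, growing at most as `exp (K l ^ n)`, in every dense set (`AllSumsLog`). -/
theorem result : ∃ c : ℝ, 0 < c ∧ AllSumsLog (Near c) := by
  classical
  obtain ⟨c, hc, h⟩ := SlowForAlmostAll.result.2
  refine ⟨c, hc, ?_⟩
  refine (all_sums_log_nat (Good := fun N => 3 ≤ N → Real.exp (c * (Real.log N) ^ (1 / 4 : ℝ)) ≤ (g N : ℝ))
    (fun U => ?_)).mono (fun W x _ h' N hN3 hN => h' N (by omega) hN hN3)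
  -- the saving is larger than every power of the logarithm
  have h1 : Tendsto (fun X : ℕ => Real.log X ^ (3 / 4 : ℝ)) atTop atTop :=
    (tendsto_rpow_atTop (by norm_num)).comp (Real.tendsto_log_atTop.comp tendsto_natCast_atTop_atTop)
  have h2 := ((tendsto_exp_mul_div_rpow_atTop (2 * U : ℝ) c hc).comp h1).eventually_ge_atTop 1
  have h3 := (Real.tendsto_log_atTop.comp tendsto_natCast_atTop_atTop).eventually_ge_atTop 1
  obtain ⟨X₀, hX₀⟩ := Filter.eventually_atTop.mp ((h.and h2).and h3)
  refine ⟨X₀, fun X hX => ?_⟩
  obtain ⟨⟨g1, g2⟩, g3⟩ := hX₀ X hX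
  simp only [Function.comp_apply] at g2 g3
  have e : {n : ℕ | 1 ≤ n ∧ n ≤ X ∧ ¬ (3 ≤ n → Real.exp (c * (Real.log n) ^ (1 / 4 : ℝ)) ≤ (g n : ℝ))} =
      (((Icc 3 X).filter (fun N : ℕ => (g N : ℝ) < Real.exp (c * (Real.log N) ^ (1 / 4 : ℝ))) : Finset ℕ) : Set ℕ) := by
    ext n
    simp only [coe_filter, mem_Icc, Set.mem_ofPred_eq, Classical.not_imp, not_le]
    constructor
    · rintro ⟨_, h2, h3, h4⟩
      exact ⟨⟨h3, h2⟩, h4⟩
    · rintro ⟨⟨h3, h2⟩, h4⟩
      exact ⟨by omega, h2, h3, h4⟩
  rw [e, Set.ncard_coe_finset]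
  refine g1.trans ?_
  have hy0 : 0 < Real.log X ^ (3 / 4 : ℝ) := by positivity
  rw [one_le_div (by positivity)] at g2
  have g4 : Real.log X ^ U ≤ (Real.log X ^ (3 / 4 : ℝ)) ^ (2 * U : ℝ) := by
    rw [← Real.rpow_mul (by linarith), ← Real.rpow_natCast]
    apply Real.rpow_le_rpow_of_exponent_le g3
    have : (0 : ℝ) ≤ U := Nat.cast_nonneg _
    linarith
  rw [Real.exp_neg, ← div_eq_mul_inv]
  exact div_le_div_of_nonneg_left (Nat.cast_nonneg _) (by positivity) (g4.trans g2)

end Pool.Agent.Results.MP_b5e119_nt.AllCombinations
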