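import Pool.Agent.Results.MP_b5e119_nt.AdditiveValues
import Pool.Agent.U513.AP.Log

/-!
# The gcd recursion for Goldbach pairs: slow descent for all parameters near the numerators and denominators of Diophantine
# approximations

Let `a_n(N)` be the recursion of the problem and `g(N)` its least zero `n ≥ 2`. Let `α ∈ ℝ ^ d` and consider all its approximations
`(k, u_1, …, u_d)` with `|k α_i - γ_i - u_i| ≤ k ^ (-τ)`; for `d = 1`, `γ = 0`, `τ = 1` these contain the denominators and numerators of
all the convergents of the continued fraction of `α`, for `τ = 1 / d` all the best simultaneous approximations, and for larger `τ` the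
very good approximations of the very well approximable `α`, which form a set of dimension `s = (d + 1) / (1 + τ) < d` and of infinite
Hausdorff measure in this dimension (Jarník). We show that there are absolute `c, D > 0` such that for all `α` outside of a set of
Hausdorff measure ZERO in the dimension `s`, ALL the integers `N ≥ 3` at a distance of at most `(log k) ^ W` from
`c_0 + a k + b_1 u_1 + ⋯ + b_d u_d`, for every integral affine form with `(a, b) ≠ 0`, every `W` and all these approximations with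
large `k`, satisfy `g(N) ≥ exp (c (log N) ^ (1/4))` and `a_n(N) ≥ N - exp (D (log N) ^ (3/4))` for all `1 ≤ n ≤ exp (c (log N) ^ (1/4))`.
For a single large `N` only `g(N) ≥ c (log N) ^ 2` is known.

Proof. The theorem `SlowForAlmostAll` of this page in the starting library (in the form of the lemma `few` of the file
`AdditiveValues`) bounds the number of the exceptional `N ≤ X` by `K X exp (- c (log X) ^ (3/4))`. The integral vectors `(k, u)` with
`k ≈ X` and a value of the form near an exceptional `N` are counted, and the sets of the `α` approximated by them, cubes of side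
`2 X ^ (- 1 - τ)`, are used as the covers in the definition of the Hausdorff measure (`U513/AP/Log`). The numbers `k`, `u` have the
density zero for a given `α`, so that the bound for the number of exceptional `N` alone does not say anything about them.
-/

set_option autoImplicit false

open Finset Filter MeasureTheory

namespace Pool.Agent.Results.MP_b5e119_nt.Approximations

open AdditiveValues (Slow few)

/-- `(k, u)` is an approximation of `α` of exponent `τ` and shift `γ`: `|k α_i - γ_i - u_i| ≤ k ^ (-τ)` for all `i`. -/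
def Approx {d : ℕ} (τ : ℝ) (γ α : Fin d → ℝ) (k : ℕ) (u : Fin d → ℤ) : Prop :=
  ∀ i, |(k : ℝ) * α i - γ i - u i| ≤ (k : ℝ) ^ (-τ)

/-- **Slow descent near the approximations of almost all points.** There are `c, D > 0` such that for all `d`, `τ ≥ 0` and `γ ∈ ℝ ^ d`
there is a set `E` of Hausdorff measure zero in the dimension `(d + 1) / (1 + τ)` (of Lebesgue measure zero if `d τ ≥ 1`), such that for
all `α ∉ E`, all `W` and all the integral affine forms `c₀ + a x + ∑ b_i y_i` with `(a, b) ≠ 0`, for all large `k` and all integral `u`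
with `|k α_i - γ_i - u_i| ≤ k ^ (-τ)`: ALL the integers `N ≥ 3` with `|N - (c₀ + a k + ∑ b_i u_i)| ≤ (log k) ^ W` have
`g_N ≥ exp (c (log N)^(1/4))`, and `a_n ≥ N - exp (D (log N)^(3/4))` for all `1 ≤ n ≤ exp (c (log N)^(1/4))` (`Slow c D N`). -/
theorem result : ∃ c D : ℝ, 0 < c ∧ 0 < D ∧ ∀ (d : ℕ) (τ : ℝ) (γ : Fin d → ℝ), 0 ≤ τ →
    ∃ E : Set (Fin d → ℝ), μH[((d : ℝ) + 1) / (1 + τ)] E = 0 ∧ (1 ≤ d * τ → volume E = 0) ∧
      ∀ α, α ∉ E → ∀ (W : ℕ) (c₀ a : ℤ) (b : Fin d → ℤ), ¬ (a = 0 ∧ b = 0) →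
        ∀ᶠ k : ℕ in atTop, ∀ u : Fin d → ℤ, Approx τ γ α k u → ∀ N : ℕ, 3 ≤ N →
          |(N : ℝ) - (c₀ + a * k + ∑ i, b i * u i : ℤ)| ≤ Real.log k ^ W → Slow c D N := by
  classical
  obtain ⟨c, D, c₁, K, hc, hD, hc₁, _, hK, hfew⟩ := few
  refine ⟨c, D, hc, hD, fun d τ γ hτ => ?_⟩
  have hF : ∀ A : ℕ, Pool.Agent.U513.AP.FewLog {N : ℕ | 3 ≤ N ∧ ¬ Slow c D N} A := by
    intro A
    have h1 : Tendsto (fun X : ℕ => Real.log X ^ (3 / 4 : ℝ)) atTop atTop :=
      (tendsto_rpow_atTop (by norm_num)).comp (Real.tendsto_log_atTop.comp tendsto_natCast_atTop_atTop)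
    have h2 := ((tendsto_exp_mul_div_rpow_atTop (2 * A : ℝ) c₁ hc₁).comp h1).eventually_ge_atTop (K + 1)
    have h3 := (Real.tendsto_log_atTop.comp tendsto_natCast_atTop_atTop).eventually_ge_atTop 1
    obtain ⟨X₀, hX₀⟩ := Filter.eventually_atTop.mp (h2.and h3)
    refine Pool.Agent.U513.AP.fewLog_of ⟨X₀ + 1, fun X hX => ?_⟩
    obtain ⟨g2, g3⟩ := hX₀ X (by omega)
    simp only [Function.comp_apply] at g2 g3
    have g1 := hfew X (by omega)
    have hX0 : (0 : ℝ) ≤ X := Nat.cast_nonneg _
    have h5 : ({b : ℕ | b ∈ {N : ℕ | 3 ≤ N ∧ ¬ Slow c D N} ∧ 1 ≤ b ∧ b ≤ X}.ncard : ℝ) ≤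
        (((Icc 3 X).filter (fun N : ℕ => ¬ Slow c D N)).card : ℝ) := by
      rw [← Set.ncard_coe_finset]
      refine Nat.cast_le.2 (Set.ncard_le_ncard ?_ (Finset.finite_toSet _))
      rintro b ⟨⟨hb, hb'⟩, _, hb2⟩
      rw [mem_coe, mem_filter, mem_Icc]
      exact ⟨⟨hb, hb2⟩, hb'⟩
    have hy0 : 0 < Real.log X ^ (3 / 4 : ℝ) := by positivity
    have hpos : 0 < (Real.log X ^ (3 / 4 : ℝ)) ^ (2 * A : ℝ) := by positivity
    rw [le_div_iff₀ hpos] at g2
    have g4 : Real.log X ^ A ≤ (Real.log X ^ (3 / 4 : ℝ)) ^ (2 * A : ℝ) := by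
      rw [← Real.rpow_mul (by linarith), ← Real.rpow_natCast]
      apply Real.rpow_le_rpow_of_exponent_le g3
      have : (0 : ℝ) ≤ A := Nat.cast_nonneg _
      linarith
    refine h5.trans (g1.trans ?_)
    rw [le_div_iff₀ (by positivity), Real.exp_neg]
    have g5 : K * Real.log X ^ A ≤ Real.exp (c₁ * Real.log X ^ (3 / 4 : ℝ)) := by
      calc K * Real.log X ^ A ≤ (K + 1) * (Real.log X ^ (3 / 4 : ℝ)) ^ (2 * A : ℝ) :=
            mul_le_mul (by linarith) g4 (by positivity) (by linarith)
        _ ≤ _ := g2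
    have hexp := Real.exp_pos (c₁ * Real.log X ^ (3 / 4 : ℝ))
    calc K * X * (Real.exp (c₁ * Real.log X ^ (3 / 4 : ℝ)))⁻¹ * Real.log X ^ A
        = X * ((K * Real.log X ^ A) / Real.exp (c₁ * Real.log X ^ (3 / 4 : ℝ))) := by ring
      _ ≤ X * 1 := mul_le_mul_of_nonneg_left ((div_le_one hexp).2 g5) hX0
      _ = X := mul_one _
  obtain ⟨E, e1, e2, e3⟩ := Pool.Agent.U513.AP.null_forms_all hF hτ γ
  refine ⟨E, e1, e2, fun α hα W c₀ a b hab => ?_⟩
  filter_upwards [e3 α hα W c₀ a b hab] with k hk u hu N hN hle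
  by_contra hbad
  exact hk u hu N ⟨hN, hbad⟩ (by omega) hle

end Pool.Agent.Results.MP_b5e119_nt.Approximations
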