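import Pool.Agent.U901.GL.A

/-!
# The gcd recursion for Goldbach pairs: `g_N ≥ c (log N)²`, and many very large gcds

The starting results give `g_N ≥ c (log N / log log N)²` for all large `N`. Here the factor
`log log N` is removed, and it is shown that the reason is a large number of very large gcds: for
every `δ` in `(0, 1]` either `g_N ≥ N ^ (δ / 4) / 8`, or at least `c δ² (log N)²` of the gcds which
are subtracted at the odd steps are at least `N ^ (1 - δ)`.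

If `G`, `G'` are the gcds at two odd steps then the gcds in between add up to at least
`G G' / (2 N)` (starting file R330.GL). The gcds below `N ^ (1 - δ)` and the gcds at the even steps
contribute little to this sum as long as `g_N` is small, so the large gcds, as a sequence of their
own, satisfy the hypotheses of the main inequality of project ZG (starting files N60.ZG).
-/

set_option autoImplicit false

namespace Pool.Agent.Results.MP_b5e119_nt.ManyLargeGcds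

open Pool.Agent.R330.GL Pool.Agent.U901.GL

/-- `a` is the recursion of the problem for the parameter `N`. -/
def IsRec (N : ℕ) (a : ℕ → ℤ) : Prop :=
  a 1 = (N : ℤ) - 2 ∧ ∀ n : ℕ, 2 ≤ n → a n = a (n - 1) -
    ((Int.gcd (a (n - 1)) ((N : ℤ) - (-1) ^ n * ((N : ℤ) - n)) : ℕ) : ℤ)

/-- The number of the odd steps `n ≤ g` (`n ≥ 3`) at which the gcd, which is the gcd of `a_{n-1}`
and `2 N - n`, is at least `B`. -/
noncomputable def numLarge (N : ℕ) (a : ℕ → ℤ) (g : ℕ) (B : ℝ) : ℕ :=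
  {n : ℕ | 3 ≤ n ∧ n ≤ g ∧ Odd n ∧ B ≤ (Int.gcd (a (n - 1)) (2 * (N : ℤ) - n) : ℝ)}.ncard

lemma des (N : ℕ) (hN : 3 ≤ N) (a : ℕ → ℤ) (ha : IsRec N a) (f : ℕ)
    (hf : IsLeast {n : ℕ | 2 ≤ n ∧ a n = 0} f) :
    Des N f a (fun n => ((Int.gcd (a (n - 1)) (V N n) : ℕ) : ℤ)) := by
  obtain ⟨ha1, ha⟩ := ha
  obtain ⟨⟨hf1, haf⟩, hmin⟩ := hf
  have hmin' : ∀ k, 1 ≤ k → k < f → a k ≠ 0 := by
    intro k hk1 hk2 hk3
    rcases Nat.lt_or_ge k 2 with h | h
    · have : k = 1 := by omega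
      subst this
      rw [ha1] at hk3
      omega
    · have := hmin ⟨h, hk3⟩
      omega
  have hnn : ∀ k, 1 ≤ k → k ≤ f → 0 ≤ a k := by
    intro k hk
    induction k, hk using Nat.le_induction with
    | base => intro _; rw [ha1]; omega
    | succ k hk ih =>
      intro hkf
      have h1 := ih (by omega)
      have hpos : 0 < a k := lt_of_le_of_ne h1 (Ne.symm (hmin' k hk (by omega)))
      rw [ha (k + 1) (by omega), Nat.add_sub_cancel]
      have := Int.le_of_dvd hpos (Int.gcd_dvd_left (a := a k)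
        (b := (N : ℤ) - (-1) ^ (k + 1) * ((N : ℤ) - ((k + 1 : ℕ) : ℤ))))
      linarith
  refine ⟨ha1, fun n hn _ => ha n hn, ?_, ?_, ?_, haf, hf1, hnn⟩
  · intro n hn hnf
    have h0 : a (n - 1) ≠ 0 := hmin' (n - 1) (by omega) (by omega)
    have := Int.gcd_pos_of_ne_zero_left (V N n) h0
    exact_mod_cast this
  · intro n _ _
    exact Int.gcd_dvd_left _ _
  · intro n _ _
    exact Int.gcd_dvd_right _ _

lemma numLarge_eq (N : ℕ) (a : ℕ → ℤ) (g : ℕ) (B : ℝ) :
    numLarge N a g B = (big g (fun n => ((Int.gcd (a (n - 1)) (V N n) : ℕ) : ℤ)) B).card := by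
  rw [numLarge, ← Set.ncard_coe_finset]
  congr 1
  ext n
  simp only [Set.mem_ofPred_eq, Finset.mem_coe, mem_big]
  constructor
  · rintro ⟨h1, h2, h3, h4⟩
    have h5 := Nat.odd_iff.1 h3
    refine ⟨⟨by omega, h2⟩, h5, ?_⟩
    rw [V_odd N h5]
    exact_mod_cast h4
  · rintro ⟨⟨h1, h2⟩, h3, h4⟩
    refine ⟨by omega, h2, Nat.odd_iff.2 h3, ?_⟩
    rw [V_odd N h3] at h4
    exact_mod_cast h4

/-- There is `c > 0` such that for every `N ≥ 3`, the recursion `a` of the problem and its least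
zero `g = g_N ≥ 2`: (1) `g ≥ c (log N)²`; (2) for all `0 < δ ≤ 1`, either `8 g ≥ N ^ (δ / 4)` or at
least `c δ² (log N)²` of the gcds at the odd steps `n ≤ g` are at least `N ^ (1 - δ)`. -/
theorem result : ∃ c : ℝ, 0 < c ∧ ∀ N : ℕ, 3 ≤ N → ∀ a : ℕ → ℤ, IsRec N a →
    ∀ g : ℕ, IsLeast {n : ℕ | 2 ≤ n ∧ a n = 0} g →
      c * (Real.log N) ^ 2 ≤ g ∧
      ∀ δ : ℝ, 0 < δ → δ ≤ 1 → (N : ℝ) ^ (δ / 4) ≤ 8 * g ∨
        c * δ ^ 2 * (Real.log N) ^ 2 ≤ numLarge N a g ((N : ℝ) ^ (1 - δ)) := by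
  refine ⟨1 / (4 * 10 ^ 6), by norm_num, fun N hN a ha g hg => ?_⟩
  have hd := des N hN a ha g hg
  have hN3 : (3 : ℝ) ≤ N := by exact_mod_cast hN
  have hN0 : (0 : ℝ) < N := by linarith
  have hN1 : (1 : ℝ) ≤ N := by linarith
  have hl0 : 0 ≤ Real.log N := Real.log_nonneg hN1
  have key : ∀ δ : ℝ, 0 < δ → δ ≤ 1 → (N : ℝ) ^ (δ / 4) ≤ 8 * g ∨
      1 / (4 * 10 ^ 6) * δ ^ 2 * (Real.log N) ^ 2 ≤ numLarge N a g ((N : ℝ) ^ (1 - δ)) := by
    intro δ hδ0 hδ1
    rcases le_or_gt ((N : ℝ) ^ (δ / 4)) (8 * g) with h1 | h1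
    · exact Or.inl h1
    · right
      obtain ⟨x, hx⟩ : ∃ x, x = (N : ℝ) ^ (δ / 4) := ⟨_, rfl⟩
      rw [← hx] at h1
      have hx1 : 1 ≤ x := by
        rw [hx]
        exact Real.one_le_rpow hN1 (by linarith)
      have hZ : (N : ℝ) ^ (δ / 2) = x ^ 2 := by
        rw [hx, ← Real.rpow_natCast, ← Real.rpow_mul hN0.le]
        congr 1
        push_cast
        ring
      have hB1 : 1 ≤ (N : ℝ) ^ (1 - δ) := Real.one_le_rpow hN1 (by linarith)
      have hx4 : (N : ℝ) ^ (1 - δ) * x ^ 4 = N := by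
        rw [hx, ← Real.rpow_natCast, ← Real.rpow_mul hN0.le, ← Real.rpow_add hN0]
        nth_rw 2 [← Real.rpow_one (N : ℝ)]
        congr 1
        push_cast
        ring
      obtain ⟨B, hB⟩ : ∃ B, B = (N : ℝ) ^ (1 - δ) := ⟨_, rfl⟩
      rw [← hB] at hB1 hx4 ⊢
      have hg0 : (0 : ℝ) ≤ g := Nat.cast_nonneg g
      have hg8 : (g : ℝ) ≤ x / 8 := by linarith
      have hx4N : x ^ 4 ≤ N := by
        rw [← hx4]
        have : 0 ≤ x ^ 4 := by positivity
        nlinarith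
      have hmain := Des.many hd (B := B) (Z := x ^ 2) hB1 (one_le_pow₀ hx1) (by
        have e1 : (g : ℝ) * (g + B) ≤ x / 8 * (x / 8 + B) := by
          apply mul_le_mul hg8 (by linarith) (by linarith) (by linarith)
        have e2 : 4 * x ^ 2 * ((g : ℝ) * (g + B)) ≤ 4 * x ^ 2 * (x / 8 * (x / 8 + B)) :=
          mul_le_mul_of_nonneg_left e1 (by positivity)
        have e3 : 4 * x ^ 2 * (x / 8 * (x / 8 + B)) = x ^ 4 / 16 + B * x ^ 3 / 2 := by ring
        have e4 : B * x ^ 3 ≤ B * x ^ 4 := by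
          apply mul_le_mul_of_nonneg_left _ (by linarith)
          exact pow_le_pow_right₀ hx1 (by norm_num)
        rw [hx4] at e4
        linarith)
      rw [← hZ, Real.log_rpow hN0, ← numLarge_eq] at hmain
      have e5 : (δ / 2 * Real.log N) ^ 2 = 1 / 4 * δ ^ 2 * (Real.log N) ^ 2 := by ring
      rw [e5] at hmain
      linarith
  refine ⟨?_, key⟩
  rcases key 1 one_pos le_rfl with h1 | h1
  · have h2 : Real.log N ≤ (N : ℝ) ^ (1 / 8 : ℝ) / (1 / 8 : ℝ) :=
      Real.log_le_rpow_div hN0.le (by norm_num)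
    have h3 : (Real.log N) ^ 2 ≤ ((N : ℝ) ^ (1 / 8 : ℝ) / (1 / 8 : ℝ)) ^ 2 :=
      pow_le_pow_left₀ hl0 h2 2
    have h4 : ((N : ℝ) ^ (1 / 8 : ℝ) / (1 / 8 : ℝ)) ^ 2 = 64 * (N : ℝ) ^ (1 / 4 : ℝ) := by
      rw [div_pow, ← Real.rpow_natCast, ← Real.rpow_mul hN0.le]
      norm_num
      ring
    rw [h4] at h3
    have h5 : (0 : ℝ) ≤ g := Nat.cast_nonneg g
    linarith
  · rw [one_pow, mul_one] at h1
    have h2 : numLarge N a g ((N : ℝ) ^ (1 - 1 : ℝ)) ≤ g := by
      rw [numLarge_eq]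
      refine (Finset.card_filter_le _ _).trans ?_
      rw [Nat.card_Icc]
      omega
    have h3 : (numLarge N a g ((N : ℝ) ^ (1 - 1 : ℝ)) : ℝ) ≤ g := by exact_mod_cast h2
    exact h1.trans h3

end Pool.Agent.Results.MP_b5e119_nt.ManyLargeGcds
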